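import Pool.Agent.E8helper36.CF.Stm

/-!
# Piece CLO
-/

set_option autoImplicit false

namespace Pool.Agent.E8helper99.CF

open Pool.Agent.E8helper36.CF

variable {n : ℕ}

lemma nxt (hT : S_TOP) (M : Matching n) (hn : 3 ≤ n) {Y : Fin (2 * n)} (hY : Top M Y)
    (h : (M.m Y : ℕ) = Y + 1) :
    ∃ Y' : Fin (2 * n), Top M Y' ∧ (((Y : ℕ) + 2 < 2 * n ∧ (Y' : ℕ) = Y + 2) ∨
      ((Y : ℕ) + 2 = 2 * n ∧ (Y' : ℕ) = 0)) := by
  have h1 := (M.m Y).2
  rw [h] at h1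
  by_cases h2 : (Y : ℕ) + 2 < 2 * n
  · refine ⟨⟨Y + 2, h2⟩, (hT n M Y hY).2.2 ⟨Y + 2, h2⟩ ?_, Or.inl ⟨h2, rfl⟩⟩
    rw [h]
  · refine ⟨⟨0, by omega⟩, ?_, Or.inr ⟨by omega, rfl⟩⟩
    intro j hj
    exact absurd hj (by simp [Fin.lt_def])

lemma ext' {M M' : Matching n} (h : ∀ x, M.m x = M'.m x) : M = M' := by
  have h' : M.m = M'.m := funext h
  cases M
  cases M'
  simp only at h'
  subst h'
  rfl

theorem t_CLO : S_TOP → S_CLO := by
  intro hT n hodd hn M hN huv hne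
  by_contra hcon
  push Not at hcon
  apply hne
  -- the propagated statement
  let Q : ℕ → Prop := fun z => ∃ X Y : Fin (2 * n), (Y : ℕ) = z ∧ Top M X ∧ Top M Y ∧
    ((Y : ℕ) + 1 = X + n ∨ (X : ℕ) = Y + n + 1)
  have hstep : ∀ z, Q z → (z + 2 < 2 * n → Q (z + 2)) ∧ (z + 2 = 2 * n → Q 0) := by
    rintro z ⟨X, Y, rfl, hX, hY, hR⟩
    have h1 := hcon X Y hX hY hR
    obtain ⟨Y', hY', hYc⟩ := nxt hT M hn hY h1
    have hXlt := X.2
    have hYlt := Y.2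
    have hR2 : (X : ℕ) + 1 = Y' + n ∨ (Y' : ℕ) = X + n + 1 := by omega
    have h2 := hcon Y' X hY' hX hR2
    obtain ⟨X', hX', hXc⟩ := nxt hT M hn hX h2
    have hR3 : (Y' : ℕ) + 1 = X' + n ∨ (X' : ℕ) = Y' + n + 1 := by omega
    constructor
    · intro h
      exact ⟨X', Y', by omega, hX', hY', hR3⟩
    · intro h
      exact ⟨X', Y', by omega, hX', hY', hR3⟩
  obtain ⟨z, hz⟩ : ∃ z, Q z := by
    obtain ⟨u, v, hu, hv, h⟩ := huv
    rcases h with h | h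
    · exact ⟨v, u, v, rfl, hu, hv, Or.inl h⟩
    · exact ⟨u, v, u, rfl, hv, hu, Or.inr h⟩
  have hz2 : z % 2 = 0 ∧ z < 2 * n := by
    obtain ⟨X, Y, rfl, hX, hY, hR⟩ := hz
    exact ⟨(hT n M Y hY).1, Y.2⟩
  have h1 : ∀ k, z + 2 * k < 2 * n → Q (z + 2 * k) := by
    intro k
    induction k with
    | zero => intro _; exact hz
    | succ k ih =>
      intro h
      have := (hstep _ (ih (by omega))).1 (by omega)
      have e : z + 2 * k + 2 = z + 2 * (k + 1) := by ring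
      rwa [e] at this
  have h0 : Q 0 := by
    obtain ⟨k, hk⟩ : ∃ k, z + 2 * k + 2 = 2 * n := ⟨(2 * n - 2 - z) / 2, by omega⟩
    exact (hstep _ (h1 k (by omega))).2 hk
  have h2 : ∀ i, 2 * i < 2 * n → Q (2 * i) := by
    intro i
    induction i with
    | zero => intro _; exact h0
    | succ i ih =>
      intro h
      have := (hstep _ (ih (by omega))).1 (by omega)
      have e : 2 * i + 2 = 2 * (i + 1) := by ring
      rwa [e] at this
  have h3 : ∀ x : Fin (2 * n), (x : ℕ) % 2 = 0 → (M.m x : ℕ) = x + 1 := by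
    intro x hx
    obtain ⟨i, hi⟩ : ∃ i, (x : ℕ) = 2 * i := ⟨x / 2, by omega⟩
    obtain ⟨X, Y, hYx, hX, hY, hR⟩ := h2 i (by have := x.2; omega)
    have : Y = x := Fin.ext (by rw [hYx, hi])
    rw [← this]
    exact hcon X Y hX hY hR
  apply ext'
  intro x
  apply Fin.ext
  show (M.m x : ℕ) = if (x : ℕ) % 2 = 0 then (x : ℕ) + 1 else x - 1
  split_ifs with hx
  · exact h3 x hx
  · have hx2 := x.2
    let y : Fin (2 * n) := ⟨x - 1, by omega⟩
    have hy : (M.m y : ℕ) = y + 1 := h3 y (by show ((x : ℕ) - 1) % 2 = 0; omega)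
    have hyx : M.m y = x := Fin.ext (by rw [hy]; show (x : ℕ) - 1 + 1 = x; omega)
    rw [← hyx, M.inv]
    show (x : ℕ) - 1 = (M.m y : ℕ) - 1
    rw [hyx]

end Pool.Agent.E8helper99.CF
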